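import Mathlib
import Pool.Agent.Helper278.DefsG
import Pool.Agent.Helper278.CEStmt
import Pool.Agent.Helper436.SM.Stmt
import Pool.Agent.Helper133.OP.Stmt
import Pool.Agent.Helper133.OP.Main

set_option autoImplicit false

namespace Pool.Agent.Results.MP_1b700c_an.NotOpposite

open Pool.Agent.Helper278 Pool.Agent.Helper436.SM Pool.Agent.Helper133.OP

universe w

/-- There is a II₁ factor `M` that is not elementarily equivalent to its opposite `M^op`. -/
theorem result :
    ∃ (H : Type) (_ : NormedAddCommGroup H) (_ : InnerProductSpace ℂ H) (_ : CompleteSpace H)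
      (M : VonNeumannAlgebra H) (τ : Elt M → ℂ),
      IsIIOneFactor M τ ∧ ¬ ElemEquiv.{w} τ (opTrace τ) :=
  main_op.{w}

end Pool.Agent.Results.MP_1b700c_an.NotOpposite
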